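import Pool.Agent.H958.RL.Stm2
import Pool.Agent.H947.RL.Priv

/-!
Project RL (helper958), problem MP_ef8d06_pr: part `S_GCONC` (concentration of `gl`), by helper703.
-/

set_option autoImplicit false

namespace Pool.Agent.H703.RL.Gconc

open Finset
open scoped Classical
open Pool.Agent.W830.RD (Om gle Pr Rlz)
open Pool.Agent.H958.RL
open Pool.Agent.W571.RD.Pind (ind ind_pos ind_neg EX EX_one EX_congr EX_mul EX_mul' fub indep)
open Pool.Agent.H603.RO.Cheb (EX_sum EX_add cheb)
open Pool.Agent.H947.RL.Priv (EX_mono var_eq Ex_eq ind_nonneg)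

noncomputable section

theorem Om_card (n : ℕ) : ((Om n).card : ℝ) ≤ (n : ℝ) ^ 2 := by
  have h : (Om n).card ≤ n ^ 2 := by
    have h1 : (Om n).card ≤ (univ : Finset (Fin n × Fin n)).card :=
      card_le_card (subset_univ _)
    rw [card_univ, Fintype.card_prod, Fintype.card_fin] at h1
    rw [sq]
    exact h1
  exact_mod_cast h

/-- Part GCONC. -/
theorem main (h1 : S_ES) (h2 : S_GDIFF) : S_GCONC := by
  intro p t n K D R hp hp1 ht
  set B : ℝ := 4 * ((D : ℝ) + 1) ^ R with hB
  set f : Finset (Fin n × Fin n) → ℝ := fun E => ((gl E K D R : ℕ) : ℝ) with hf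
  set g : Finset (Fin n × Fin n) → ℝ := fun E => f (E ∩ Om n) with hg
  have hgf : ∀ E ⊆ Om n, g E = f E := by
    intro E hE
    have e : E ∩ Om n = E := inter_eq_left.mpr hE
    rw [hg]
    beta_reduce
    rw [e]
  have hloc : ∀ E, g E = g (E ∩ Om n) := by
    intro E
    rw [hg]
    beta_reduce
    rw [inter_assoc, inter_self]
  have hdiff : ∀ E, ∀ e ∈ Om n, |g (insert e E) - g (E.erase e)| ≤ B := by
    intro E e he
    have e1 : (insert e E) ∩ Om n = insert e (E ∩ Om n) := insert_inter_of_mem he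
    have e2 : (E.erase e) ∩ Om n = (E ∩ Om n).erase e := erase_inter _ _ _
    rw [hg]
    beta_reduce
    rw [e1, e2, hf, hB]
    exact h2 n K D R (E ∩ Om n) e
  have hES := h1 p B n (Om n) g hp hp1 (Subset.refl _) hloc hdiff
  set mu := EX p (Om n) g with hmu
  simp only [Ex_eq] at hES
  rw [← hmu, var_eq p (Om n) g mu hmu.symm] at hES
  have hche := cheb p (Om n) hp hp1 g mu t ht hmu.symm
  have hmuf : Ex p n f = mu := by
    rw [Ex_eq, hmu]
    exact (EX_congr p (Om n) g f hgf).symm
  rw [Pool.Agent.H603.RO.Cheb.Pr_eq, hmuf]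
  have e3 : EX p (Om n) (fun E => ind (mu + t < ((gl E K D R : ℕ) : ℝ))) =
      EX p (Om n) (fun E => ind (mu + t < g E)) := by
    refine EX_congr p (Om n) _ _ fun E hE => ?_
    have h : g E = ((gl E K D R : ℕ) : ℝ) := hgf E hE
    rw [h]
  rw [e3]
  refine hche.trans ?_
  refine div_le_div_of_nonneg_right ?_ (pow_nonneg ht.le 2)
  refine hES.trans ?_
  exact mul_le_mul_of_nonneg_left (Om_card n) (mul_nonneg hp.le (sq_nonneg B))

end

end Pool.Agent.H703.RL.Gconc
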