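import Pool.Agent.H958.RL.Stm
import Pool.Graph.R_seed8.W657.RD.PBas
import Pool.Graph.R_seed8.W571.RD.Pind

/-! Restriction to the first `m` vertices. -/

set_option autoImplicit false

namespace Pool.Agent.H703.RL.Restr

open Finset Filter Topology
open scoped Classical
open Pool.Agent.W830.RD (Om gle Pr Rlz)
open Pool.Agent.W571.RD.Pind

noncomputable section

variable {m n : ℕ} (hmn : m ≤ n)

/-- The embedding of the pairs. -/
def emb : Fin m × Fin m ↪ Fin n × Fin n :=
  ⟨fun e => (Fin.castLE hmn e.1, Fin.castLE hmn e.2), by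
    intro a b h
    have h1 := congrArg Prod.fst h
    have h2 := congrArg Prod.snd h
    exact Prod.ext (Fin.castLE_injective hmn h1) (Fin.castLE_injective hmn h2)⟩

theorem emb_apply (e : Fin m × Fin m) :
    emb hmn e = (Fin.castLE hmn e.1, Fin.castLE hmn e.2) := rfl

/-- The restriction. -/
def R (E : Finset (Fin n × Fin n)) : Finset (Fin m × Fin m) :=
  univ.filter (fun e => emb hmn e ∈ E)

theorem mem_R (E : Finset (Fin n × Fin n)) (e : Fin m × Fin m) :
    e ∈ R hmn E ↔ emb hmn e ∈ E := by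
  unfold R
  rw [Finset.mem_filter]
  exact ⟨fun h => h.2, fun h => ⟨Finset.mem_univ _, h⟩⟩

theorem mem_Om {r : ℕ} (e : Fin r × Fin r) : e ∈ Om r ↔ e.1 < e.2 := by
  unfold Om
  rw [Finset.mem_filter]
  exact ⟨fun h => h.2, fun h => ⟨Finset.mem_univ _, h⟩⟩

theorem emb_Om (e : Fin m × Fin m) : emb hmn e ∈ Om n ↔ e ∈ Om m := by
  rw [mem_Om, mem_Om, emb_apply]
  exact Iff.rfl

theorem gle_R {E : Finset (Fin n × Fin n)} (hE : E ⊆ Om n) (x y : Fin m) :
    gle (R hmn E) x y ↔ gle E (Fin.castLE hmn x) (Fin.castLE hmn y) := by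
  constructor
  · intro h
    unfold gle at h
    induction h with
    | refl => exact Relation.ReflTransGen.refl
    | @tail b c h1 h2 ih => exact Relation.ReflTransGen.tail ih ((mem_R hmn E (b, c)).1 h2)
  · intro h
    have key : ∀ v : Fin n, gle E (Fin.castLE hmn x) v →
        ∀ y : Fin m, v = Fin.castLE hmn y → gle (R hmn E) x y := by
      intro v hv
      unfold gle at hv
      induction hv with
      | refl =>
        intro y hy
        rw [Fin.castLE_injective hmn hy]
        exact Relation.ReflTransGen.refl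
      | @tail b c h1 h2 ih =>
        intro y hy
        have h3 : b < c := (mem_Om (b, c)).1 (hE h2)
        have h4 : (b : ℕ) < m := by
          have h5 : (b : ℕ) < (c : ℕ) := h3
          have h6 : (c : ℕ) = (y : ℕ) := by rw [hy]; rfl
          have h7 := y.2
          omega
        have h8 := ih ⟨(b : ℕ), h4⟩ (Fin.ext rfl)
        refine Relation.ReflTransGen.tail h8 ?_
        rw [mem_R, emb_apply]
        have e1 : Fin.castLE hmn (⟨(b : ℕ), h4⟩ : Fin m) = b := Fin.ext rfl
        change (Fin.castLE hmn (⟨(b : ℕ), h4⟩ : Fin m), Fin.castLE hmn y) ∈ E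
        rw [e1, ← hy]
        exact h2
    exact key _ h y rfl

theorem R_map (E : Finset (Fin m × Fin m)) : R hmn (E.map (emb hmn)) = E := by
  ext e
  rw [mem_R, Finset.mem_map]
  constructor
  · rintro ⟨a, ha, hae⟩
    rw [← (emb hmn).injective hae]
    exact ha
  · intro h
    exact ⟨e, h, rfl⟩

theorem map_R {E : Finset (Fin n × Fin n)} (hE : E ⊆ (Om m).map (emb hmn)) :
    (R hmn E).map (emb hmn) = E := by
  ext e
  rw [Finset.mem_map]
  constructor
  · rintro ⟨a, ha, hae⟩
    rw [← hae]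
    exact (mem_R hmn E a).1 ha
  · intro h
    obtain ⟨a, _, hae⟩ := Finset.mem_map.1 (hE h)
    refine ⟨a, (mem_R hmn E a).2 ?_, hae⟩
    rw [hae]
    exact h

theorem EX_map (p : ℝ) (G : Finset (Fin m × Fin m) → ℝ) :
    EX p ((Om m).map (emb hmn)) (fun E => G (R hmn E)) = EX p (Om m) G := by
  unfold EX
  refine Finset.sum_nbij' (fun E => R hmn E) (fun E => E.map (emb hmn)) ?_ ?_ ?_ ?_ ?_
  · intro E hE
    rw [Finset.mem_powerset] at hE ⊢
    intro e he
    rw [mem_R] at he
    obtain ⟨a, ha, hae⟩ := Finset.mem_map.1 (hE he)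
    rw [← (emb hmn).injective hae]
    exact ha
  · intro E hE
    rw [Finset.mem_powerset] at hE ⊢
    exact Finset.map_subset_map.2 hE
  · intro E hE
    exact map_R hmn (Finset.mem_powerset.1 hE)
  · intro E _
    exact R_map hmn E
  · intro E hE
    have h1 : E.card = (R hmn E).card := by
      rw [← Finset.card_map (emb hmn), map_R hmn (Finset.mem_powerset.1 hE)]
    rw [Finset.card_map, h1]

theorem Pr_R (p : ℝ) (Q : Finset (Fin m × Fin m) → Prop) :
    Pr p n (fun E => Q (R hmn E)) = Pr p m Q := by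
  rw [Pr_eq, Pr_eq, ← EX_map hmn p]
  have hsub : (Om m).map (emb hmn) ⊆ Om n := by
    intro e he
    obtain ⟨a, ha, hae⟩ := Finset.mem_map.1 he
    rw [← hae, emb_Om]
    exact ha
  have hun : Om n = (Om m).map (emb hmn) ∪ (Om n \ (Om m).map (emb hmn)) :=
    (Finset.union_sdiff_of_subset hsub).symm
  conv_lhs => rw [hun]
  rw [fub p _ _ Finset.disjoint_sdiff]
  refine EX_congr p _ _ _ fun E1 h1 => ?_
  rw [EX_congr p _ _ (fun _ => ind (Q (R hmn E1)) * 1) fun E2 h2 => ?_, EX_mul', EX_one, mul_one]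
  have h3 : R hmn (E1 ∪ E2) = R hmn E1 := by
    ext e
    rw [mem_R, mem_R, Finset.mem_union]
    constructor
    · rintro (h | h)
      · exact h
      · exfalso
        have h4 := Finset.mem_sdiff.1 (h2 h)
        exact h4.2 (Finset.mem_map.2 ⟨e, (emb_Om hmn e).1 h4.1, rfl⟩)
    · exact Or.inl
  show ind (Q (R hmn (E1 ∪ E2))) = _
  rw [h3, mul_one]

theorem main : Pool.Agent.H958.RL.S_RESTR := by
  intro p m n K hp0 hp1 hmn
  have h1 : ∀ E, E ⊆ Om n → (∃ k ≤ K, Rlz (gle E) k) → ∃ k ≤ K, Rlz (gle (R hmn E)) k := by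
    rintro E hE ⟨k, hk, f, hf, hle⟩
    refine ⟨k, hk, fun i x => f i (Fin.castLE hmn x), ?_, ?_⟩
    · intro i
      exact (hf i).comp (Fin.castLE_injective hmn)
    · intro x y
      rw [gle_R hmn hE]
      exact hle _ _
  have h2 := (Pool.Agent.W657.RD.PBas.main p n hp0 hp1).2.2.1 _ _ h1
  exact h2.trans (le_of_eq (Pr_R hmn p (fun E => ∃ k ≤ K, Rlz (gle E) k)))

end

end Pool.Agent.H703.RL.Restr
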